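import Pool.Agent.TH466.QG.Strong
import Pool.Agent.W603.LV.Ex
import Pool.Agent.W619.PQ.Fix

/-!
Specializations: embeddings of function fields of curves, and the action of a finite group.
-/

set_option autoImplicit false
set_option linter.overlappingInstances false
set_option linter.unusedSectionVars false
set_option linter.unusedVariables false
set_option maxHeartbeats 4000000
set_option synthInstance.maxHeartbeats 400000

open Polynomial FF IntermediateField Pool.Agent.TH466.QG

namespace Pool.Agent.K4H25.HY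

section

variable {k K N N' : Type} [Field k] [Field K] [Field N] [Field N'] [Algebra k K] [Algebra k N]
  [Algebra k N']

/-- the composition with an embedding -/
def mapSp (S : Sp k K N) (φ : N →ₐ[k] N') : Sp k K N' where
  T x y := ∃ x', S.T x x' ∧ φ x' = y
  add := by
    rintro x y _ _ ⟨a, ha, rfl⟩ ⟨b, hb, rfl⟩
    exact ⟨a + b, S.add ha hb, map_add _ _ _⟩
  mul := by
    rintro x y _ _ ⟨a, ha, rfl⟩ ⟨b, hb, rfl⟩
    exact ⟨a * b, S.mul ha hb, map_mul _ _ _⟩
  const c := ⟨_, S.const c, φ.commutes c⟩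
  uniq := by
    rintro _ ⟨a, ha, rfl⟩
    rw [S.uniq ha, map_zero]

theorem spec_poly (S : Sp k K N) {t : K} {t' : N} (ht : S.T t t') (P : k[X]) :
    S.T (aeval t P) (aeval t' P) := by
  rw [aeval_eq_sum_range, aeval_eq_sum_range]
  simp only [Algebra.smul_def]
  exact S.sum _ fun i _ => S.mul (S.const _) (S.pow ht i)

/-- the specialization of a curve in which a function is not constant is injective -/
theorem spec_ne_zero [CharZero k] [IsAlgClosed k] [IsFF k K] (S : Sp k K N) {t : K} {t' : N}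
    (ht : S.T t t') (htr : Transcendental k t') {a : K} (ha : S.T a 0) : a = 0 := by
  classical
  by_contra ha0
  have htt : Transcendental k t := by
    intro halg
    obtain ⟨P, hP0, hP⟩ := halg
    exact htr ⟨P, hP0, S.ext (by rw [← hP]; exact spec_poly S ht P) S.zero⟩
  obtain ⟨G, hG, hG'⟩ := Pool.Agent.W603.LV.exists_poly htt a
  have hinj : Function.Injective (aeval t : k[X] →ₐ[k] K) := transcendental_iff_injective.1 htt
  let _ : Algebra k[X] K := ((aeval t : k[X] →ₐ[k] K) : k[X] →+* K).toAlgebra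
  have hfs : FaithfulSMul k[X] K := (faithfulSMul_iff_algebraMap_injective _ _).2 hinj
  have halg : IsAlgebraic k[X] a := by
    refine ⟨G, ?_, hG⟩
    rintro rfl
    apply hG'
    rw [derivative_zero, map_zero]
  obtain ⟨q, hq0, hq⟩ := halg.exists_nonzero_coeff_and_aeval_eq_zero
    (mem_nonZeroDivisors_of_ne_zero ha0)
  have h1 : S.T (∑ i ∈ Finset.range (q.natDegree + 1), aeval t (q.coeff i) * a ^ i)
      (∑ i ∈ Finset.range (q.natDegree + 1), aeval t' (q.coeff i) * 0 ^ i) :=
    S.sum _ fun i _ => S.mul (spec_poly S ht _) (S.pow ha i)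
  have h2 : ∑ i ∈ Finset.range (q.natDegree + 1), aeval t (q.coeff i) * a ^ i = 0 := by
    rw [← hq, aeval_eq_sum_range]
    simp only [Algebra.smul_def]
    rfl
  have h3 : ∑ i ∈ Finset.range (q.natDegree + 1), aeval t' (q.coeff i) * (0 : N) ^ i =
      aeval t' (q.coeff 0) := by
    rw [Finset.sum_eq_single 0]
    · rw [pow_zero, mul_one]
    · intro i _ hi
      rw [zero_pow hi, mul_zero]
    · intro h
      exact absurd (Finset.mem_range.2 (Nat.succ_pos _)) h
  rw [h2, h3] at h1
  exact htr ⟨_, hq0, S.uniq h1⟩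

/-- The embedding of the function field of a curve given by a specialization which is not constant
on the curve. -/
theorem exists_embed [CharZero k] [IsAlgClosed k] (S : Sp k K N) (C : IntermediateField k K)
    [hC : IsFF k C] {Y : Set K} (hY : IntermediateField.adjoin k Y = C)
    (hS : ∀ y ∈ Y, ∃ z, S.T y z) {t : K} (htC : t ∈ C) {t' : N} (ht : S.T t t')
    (htr : Transcendental k t') :
    ∃ ι : C →ₐ[k] N, ∀ (z : C) (z' : N), S.T z z' → ι z = z' := by
  classical
  let R : Subalgebra k C :=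
    { carrier := {z | ∃ z', S.T (z : K) z'}
      mul_mem' := by
        rintro a b ⟨a', ha⟩ ⟨b', hb⟩
        exact ⟨a' * b', S.mul ha hb⟩
      add_mem' := by
        rintro a b ⟨a', ha⟩ ⟨b', hb⟩
        exact ⟨a' + b', S.add ha hb⟩
      algebraMap_mem' := fun c => ⟨_, S.const c⟩ }
  let f : R → N := fun z => Classical.choose z.2
  have hf : ∀ z : R, S.T ((z : C) : K) (f z) := fun z => Classical.choose_spec z.2
  let φ : R →ₐ[k] N :=
    { toFun := f
      map_one' := S.ext (hf _) S.one
      map_mul' := fun a b => S.ext (hf _) (S.mul (hf a) (hf b))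
      map_zero' := S.ext (hf _) S.zero
      map_add' := fun a b => S.ext (hf _) (S.add (hf a) (hf b))
      commutes' := fun c => S.ext (hf _) (S.const c) }
  have hφ : ∀ z : R, S.T ((z : C) : K) (φ z) := hf
  have hinj : Function.Injective φ := by
    rw [injective_iff_map_eq_zero]
    intro a ha
    have h1 := hφ a
    rw [ha] at h1
    have h2 : (a : C) = 0 := spec_ne_zero (K := C) (S.res (K0 := C)) (t := ⟨t, htC⟩) (t' := t')
      ht htr h1
    exact Subtype.ext h2
  have hsurj : ∀ z : C, ∃ x y : R, z = algebraMap R C x / algebraMap R C y := by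
    intro z
    have hz : (z : K) ∈ IntermediateField.adjoin k Y := by rw [hY]; exact z.2
    obtain ⟨r, hr, s, hs, hrs⟩ := IntermediateField.mem_adjoin_iff_div.1 hz
    have hmem : ∀ x ∈ Algebra.adjoin k Y, x ∈ C ∧ ∃ x', S.T x x' := by
      intro x hx
      refine ⟨?_, ?_⟩
      · rw [← hY]
        exact IntermediateField.algebra_adjoin_le_adjoin k Y hx
      · induction hx using Algebra.adjoin_induction with
        | mem x hx => exact hS x hx
        | algebraMap c => exact ⟨_, S.const c⟩
        | add x y _ _ hx hy =>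
          obtain ⟨x', hx⟩ := hx
          obtain ⟨y', hy⟩ := hy
          exact ⟨_, S.add hx hy⟩
        | mul x y _ _ hx hy =>
          obtain ⟨x', hx⟩ := hx
          obtain ⟨y', hy⟩ := hy
          exact ⟨_, S.mul hx hy⟩
    refine ⟨⟨⟨r, (hmem r hr).1⟩, (hmem r hr).2⟩, ⟨⟨s, (hmem s hs).1⟩, (hmem s hs).2⟩, ?_⟩
    apply Subtype.ext
    exact hrs
  have hfr : IsFractionRing R C := IsFractionRing.of_field R C hsurj
  refine ⟨IsFractionRing.liftAlgHom (g := φ) hinj, fun z z' hz => ?_⟩
  have h1 : IsFractionRing.liftAlgHom (K := C) (g := φ) hinj (algebraMap R C ⟨z, z', hz⟩) =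
      φ ⟨z, z', hz⟩ := IsFractionRing.lift_algebraMap hinj _
  exact h1.trans (S.ext (hφ ⟨z, z', hz⟩) hz)

/-- the coefficients of the product of linear polynomials -/
theorem spec_prod (S : Sp k K N) {I : Type} (s : Finset I) {a : I → K} {a' : I → N}
    (h : ∀ i ∈ s, S.T (a i) (a' i)) (j : ℕ) :
    S.T ((∏ i ∈ s, (X - C (a i))).coeff j) ((∏ i ∈ s, (X - C (a' i))).coeff j) := by
  classical
  induction s using Finset.induction_on generalizing j with
  | empty =>
    rw [Finset.prod_empty, Finset.prod_empty, coeff_one, coeff_one]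
    split_ifs
    · exact S.one
    · exact S.zero
  | insert i s hi ih =>
    rw [Finset.prod_insert hi, Finset.prod_insert hi, coeff_mul, coeff_mul]
    refine S.sum _ fun x _ => S.mul ?_ (ih (fun i hi => h i (Finset.mem_insert_of_mem hi)) _)
    rw [coeff_sub, coeff_sub]
    refine S.sub ?_ ?_
    · rw [coeff_X, coeff_X]
      split_ifs
      · exact S.one
      · exact S.zero
    · rw [coeff_C, coeff_C]
      split_ifs
      · exact h i (Finset.mem_insert_self _ _)
      · exact S.zero

/-- The action of the Galois group on a specialization. -/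
theorem galois_spec [CharZero k] (G : Subgroup (K ≃ₐ[k] K)) [Finite G] {Y : Set K}
    (hY : Y.Finite) : ∃ (Θ0 Θ1 : Set K), Θ0.Finite ∧ Θ1.Finite ∧ (∀ z ∈ Θ0, z ∈ fixedField G) ∧
      ∀ (N : Type) [Field N] [Algebra k N] (S : Sp k K N) (σ : N ≃ₐ[k] N),
        (∀ ϑ ∈ Θ0, ∃ t, S.T ϑ t ∧ σ t = t) → (∀ ϑ ∈ Θ1, ∃ t, S.T ϑ t) →
        ∃ g ∈ G, ∀ y ∈ Y, ∀ y', S.T y y' → S.T (g y) (σ y') := by
  classical
  have := Fintype.ofFinite G
  have hfd : FiniteDimensional (fixedField G) K := Pool.Agent.W619.PQ.fixed_finite G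
  have hcF : CharZero (fixedField G) :=
    charZero_of_injective_algebraMap (algebraMap k (fixedField G)).injective
  obtain ⟨θ, hθ⟩ := Field.exists_primitive_element (fixedField G) K
  have hθi : IsIntegral (fixedField G) θ := Algebra.IsIntegral.isIntegral θ
  have hrep : ∀ ϑ : K, ∃ p : (fixedField G)[X], Polynomial.aeval θ p = ϑ := by
    intro ϑ
    have h1 : ϑ ∈ ((fixedField G)⟮θ⟯).toSubalgebra := by
      rw [hθ]
      exact IntermediateField.mem_top
    rw [IntermediateField.adjoin_simple_toSubalgebra_of_isAlgebraic hθi.isAlgebraic] at h1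
    rw [Algebra.adjoin_singleton_eq_range_aeval] at h1
    exact h1
  choose p hp using hrep
  obtain ⟨P, hP⟩ : ∃ P : K[X], P = ∏ g : G, (X - C ((g : K ≃ₐ[k] K) θ)) := ⟨_, rfl⟩
  have hPfix : ∀ j, P.coeff j ∈ fixedField G := by
    intro j g
    change (g : K ≃ₐ[k] K) (P.coeff j) = P.coeff j
    have h1 : P.map ((g : K ≃ₐ[k] K) : K →+* K) = P := by
      rw [hP, Polynomial.map_prod]
      refine Fintype.prod_equiv (Equiv.mulLeft g) _ _ fun h => ?_
      rw [Polynomial.map_sub, Polynomial.map_X, Polynomial.map_C]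
      rfl
    have h2 := congrArg (fun Q => Polynomial.coeff Q j) h1
    rw [Polynomial.coeff_map] at h2
    exact h2
  refine ⟨(P.coeffs : Set K) ∪ ⋃ y ∈ Y, ((fun c : fixedField G => (c : K)) '' (p y).coeffs),
    Set.range fun g : G => (g : K ≃ₐ[k] K) θ,
    (Finset.finite_toSet _).union (hY.biUnion fun y _ => (Finset.finite_toSet _).image _),
    Set.finite_range _, ?_, ?_⟩
  · rintro z (hz | hz)
    · obtain ⟨j, hj, rfl⟩ := Polynomial.mem_coeffs_iff.1 hz
      exact hPfix j
    · obtain ⟨y, hy, c, hc, rfl⟩ := Set.mem_iUnion₂.1 hz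
      exact c.2
  intro N _ _ S σ h0 h1
  have hs : ∀ g : G, ∃ t, S.T ((g : K ≃ₐ[k] K) θ) t := fun g => h1 _ ⟨g, rfl⟩
  choose s hs using hs
  have hPP : ∀ j, S.T (P.coeff j) ((∏ g : G, (X - C (s g))).coeff j) := by
    intro j
    rw [hP]
    exact spec_prod S _ (fun g _ => hs g) j
  have hσP : (∏ g : G, (X - C (s g))).map (σ : N →+* N) = ∏ g : G, (X - C (s g)) := by
    ext j
    rw [Polynomial.coeff_map]
    change σ _ = _
    by_cases hj : P.coeff j = 0
    · have h2 : (∏ g : G, (X - C (s g))).coeff j = 0 := S.eq_zero (hPP j) hj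
      rw [h2, map_zero]
    · obtain ⟨t, ht, htσ⟩ := h0 _ (Or.inl (Polynomial.coeff_mem_coeffs hj))
      rw [S.ext (hPP j) ht]
      exact htσ
  have hroot : Polynomial.eval (σ (s 1)) (∏ g : G, (X - C (s g))) = 0 := by
    have h2 : Polynomial.eval (s 1) (∏ g : G, (X - C (s g))) = 0 := by
      rw [Polynomial.eval_prod]
      refine Finset.prod_eq_zero (Finset.mem_univ 1) ?_
      rw [Polynomial.eval_sub, Polynomial.eval_X, Polynomial.eval_C, sub_self]
    have h3 : Polynomial.eval ((σ : N →+* N) (s 1))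
        ((∏ g : G, (X - C (s g))).map (σ : N →+* N)) = 0 := by
      rw [Polynomial.eval_map_apply, h2, map_zero]
    rw [hσP] at h3
    exact h3
  rw [Polynomial.eval_prod, Finset.prod_eq_zero_iff] at hroot
  obtain ⟨g, -, hg⟩ := hroot
  rw [Polynomial.eval_sub, Polynomial.eval_X, Polynomial.eval_C, sub_eq_zero] at hg
  refine ⟨g, g.2, fun y hy y' hyy' => ?_⟩
  have hco : ∀ j, ∃ t, S.T (((p y).coeff j : fixedField G) : K) t ∧ σ t = t := by
    intro j
    by_cases hj : (p y).coeff j = 0
    · rw [hj]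
      exact ⟨0, S.zero, map_zero _⟩
    · exact h0 _ (Or.inr (Set.mem_iUnion₂.2 ⟨y, hy, _, Polynomial.coeff_mem_coeffs hj, rfl⟩))
  choose u hu huσ using hco
  have hyv : y = ∑ j ∈ Finset.range ((p y).natDegree + 1),
      (((p y).coeff j : fixedField G) : K) * θ ^ j := by
    conv_lhs => rw [← hp y, Polynomial.aeval_eq_sum_range]
    rfl
  have hy1 : y' = ∑ j ∈ Finset.range ((p y).natDegree + 1), u j * s 1 ^ j := by
    refine S.ext hyy' ?_
    conv_lhs => rw [hyv]
    exact S.sum _ fun j _ => S.mul (hu j) (S.pow (hs 1) j)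
  have hy2 : (g : K ≃ₐ[k] K) y = ∑ j ∈ Finset.range ((p y).natDegree + 1),
      (((p y).coeff j : fixedField G) : K) * ((g : K ≃ₐ[k] K) θ) ^ j := by
    conv_lhs => rw [hyv]
    rw [map_sum]
    refine Finset.sum_congr rfl fun j _ => ?_
    rw [map_mul, map_pow]
    congr 1
    exact ((p y).coeff j).2 g
  rw [hy2, hy1, map_sum]
  refine S.sum _ fun j _ => ?_
  rw [map_mul, map_pow, huσ, hg]
  exact S.mul (hu j) (S.pow (hs g) j)

end

end Pool.Agent.K4H25.HY
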